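import Pool.Agent.U854.TW.Dlaw
import Pool.Agent.U374.BK.Tower
import Pool.Agent.U374.BK.Marg

/-!
# The order of vanishing formula at `p = 3` for a positive proportion of the cubic twists over EVERY
# fixed field `F = K(∛d₁, …, ∛dₙ)`, and for the `3 ^ n` twists over `K` independently

`K` is the field of the third roots of unity and `F = K(∛d₁, …, ∛dₙ)`, where the `dᵢ` are arbitrary
elements of `𝓞 K`, `1` modulo `3`, of norm `1` modulo `9`, independent modulo cubes (so `F` is an
abelian extension of `K` of exponent `3` and degree `3 ^ n`).  `E_D : y² + D y = x³`, and `D` runs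
through the squarefree `D = 1` modulo `3` of `𝓞 K`, prime to the `dᵢ`, whose norm is not `1` modulo `9`,
ordered by the norm; there are at least `c X` of them.  For `t` in `(ℤ/3)ⁿ` let
`D_t = D ∏ dᵢ ^ tᵢ`; the curves `E_{D_t}` are the cubic twists of `E_D` that become isomorphic to `E_D`
over `F`.

For a curve `W` over a number field `k` the motive `M = h¹(W)(1)` over `k` has `L(s, M) = L(W/k, s + 1)`
and `M_3 = V_3 W`.  `Formula W` is the formula of the problem for `M` and `p = 3`, with both sides zero: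
the complete `L`-series of Mathlib (with the Euler factors at all the places, the bad ones included)
converges for `Re s > 2` and extends to a meromorphic function on the plane which is analytic and not
zero at `s = 1`, and `H⁰(k, V_3 W)` and the Bloch–Kato Selmer group `H¹_f(k, V_3 W)` are zero.

* For every `D`: if the Selmer group of `√-3` of `E_{D_t}` over `K` has the smallest possible order `3`,
  then the formula holds for `h¹(E_{D_t})(1)` over `K`.  If this is so for all the `3 ^ n` vectors `t`,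
  then the formula holds for `h¹(E_D)(1)` over `F`.
* JOINT LAW: the orders `3 ^ (r_t + 1)` of these `3 ^ n` Selmer groups are independent: for EVERY set
  `T` of vectors the proportion of the `D` with `(r_t)_t` in `T` tends to the measure of `T` for the
  product of `3 ^ n` copies of the law `law r = p / ((3 - 1) (9 - 1) ⋯ (3 ^ r - 1))`,
  `p = ∏ (1 - 3 ^ {-(2 i + 1)}) = 0.6390…`.
* So, for every set `A` of vectors, the formula holds over `K` for all the `h¹(E_{D_t})(1)`, `t` in `A`,
  with lower density at least `p ^ #A`, and for EVERY fixed field `F` the formula holds for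
  `h¹(E_D)(1)` over `F` with lower density at least `p ^ [F : K]`.

In `CubicTwistsOrderFormula` of this problem the field is `K` itself or the cubic field `K(∛D)`, which
depends on `D`.  The laws and the descent to `K` are those of the libraries Q283/T3, R432 and of
helper854 (`Pool/Agent/U854/TW`, made for `MP_1a91b9_nt.FixedTowers`, where the Euler product over the
places outside `3 D ∏ dᵢ` is treated and the Selmer groups of Bloch and Kato do not occur); new here are
the complete `L`-functions, the twists one by one over `K`, and the passage to the formula of Bloch and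
Kato.  `H1f 3 W` (`Pool.Agent.Y667.BKP.H1f`, by helper667) is the group of the classes of the
continuous cocycles of the absolute Galois group with values in `V_3 W = T_3 W ⊗ ℚ_3` whose restriction
to the completion at every place is in the image of the Kummer map; this is the condition of Bloch and
Kato.  An element of `V_3 W` is described by a sequence of points (`IsV 3 W`).
-/

set_option autoImplicit false

open scoped Classical

namespace Pool.Agent.Results.MP_ec4e4b_nt.FixedRadicalFields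

open NumberField IsDedekindDomain WeierstrassCurve Filter
open Pool.Agent.TH841.SH.D (Gal act Coch)
open Pool.Agent.Y667.BKP (H1f PSeq IsV)

/-- The curve `E_D : y² + D y = x³`. -/
def curve {F : Type} [Field F] (D : F) : WeierstrassCurve F := ⟨0, 0, D, 0, 0⟩

/-- `H⁰(F, V_3 W) = 0`: the elements of `V_3 W` that are fixed by the Galois group are zero. -/
def NoInvariants {F : Type} [Field F] (W : WeierstrassCurve F) : Prop :=
  ∀ x : PSeq W, IsV 3 W x → (∀ (σ : Gal F) (n : ℕ), act W σ.toAlgHom (x n) = x n) → ∀ n, x n = 0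

/-- The order of vanishing formula for `h¹(W)(1)` and `p = 3`, both sides being zero: `W` is an elliptic
curve, its `L`-series (of Mathlib) converges for `Re s > 2` and extends to a meromorphic function on
the plane that is analytic and not zero at `1`, and `H⁰(F, V_3 W)` and `H¹_f(F, V_3 W)` are zero. -/
def Formula {F : Type} [Field F] [NumberField F] (W : WeierstrassCurve F) : Prop :=
  W.IsElliptic ∧
  (∃ L : ℂ → ℂ, MeromorphicOn L Set.univ ∧
    (∀ s : ℂ, 2 < s.re → LSeriesSummable ((fun n : ℤ => (n : ℂ)) ∘ W.LFunction) s ∧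
      L s = W.LSeries s) ∧ AnalyticAt ℂ L 1 ∧ L 1 ≠ 0) ∧
  NoInvariants W ∧ ∀ x : H1f 3 W, x = 0

section field

variable {F : Type} [Field F] [NumberField F]

/-- The Selmer group of the endomorphism `√-3` of `E_D` over `F`, if `F` contains the third roots of
unity: the continuous cocycles with values in its kernel `{0, (0, 0), (0, -D)}` that are coboundaries in
`E_D` at all the places of `F`. -/
def Sel (D : F) : Set (Coch (curve D)) :=
  {f | Pool.Agent.TH841.NF.D.IsShaCoc (curve D) f ∧ ∀ σ, f σ = 0 ∨ ∃ y h, f σ = Affine.Point.some 0 y h}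

end field

variable {K : Type} [Field K] [NumberField K]

/-- `d₁, …, dₙ` are `1` modulo `3`, their norms are `1` modulo `9`, and they are independent modulo
cubes. -/
structure Family {n : ℕ} (d : Fin n → 𝓞 K) : Prop where
  three : ∀ i, (3 : 𝓞 K) ∣ d i - 1
  nine : ∀ i, (9 : ℤ) ∣ Algebra.norm ℤ (d i) - 1
  ind : ∀ a : Fin n → ℕ, (∃ x : 𝓞 K, x ^ 3 = ∏ i, d i ^ a i) → ∀ i, 3 ∣ a i

/-- `F = K(∛d₁, …, ∛dₙ)`. -/
def Generated {n : ℕ} (d : Fin n → 𝓞 K) (F : Type) [Field F] [Algebra K F] : Prop :=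
  ∃ r : Fin n → F, (∀ i, r i ^ 3 = algebraMap K F (d i : K)) ∧
    ∀ L : Subfield F, (∀ k : K, algebraMap K F k ∈ L) → (∀ i, r i ∈ L) → L = ⊤

/-- `D` is squarefree and `1` modulo `3`, its norm is not `1` modulo `9`, and it is prime to the `dᵢ`. -/
def InClass {n : ℕ} (d : Fin n → 𝓞 K) (D : 𝓞 K) : Prop :=
  ((3 : 𝓞 K) ∣ D - 1 ∧ Squarefree D ∧ ¬ (9 : ℤ) ∣ Algebra.norm ℤ D - 1) ∧
    ∀ π : 𝓞 K, Prime π → π ∣ D → ¬ π ∣ ∏ i, d i

/-- `D_t = D ∏ dᵢ ^ tᵢ`, `t` in `(ℤ/3)ⁿ` (the exponents are taken in `{0, 1, 2}`). -/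
noncomputable def twist {n : ℕ} (d : Fin n → 𝓞 K) (D : 𝓞 K) (t : Fin n → ZMod 3) : 𝓞 K :=
  D * ∏ i, d i ^ (t i).val

/-- the `D` in the class of norm at most `X` with the property `P` -/
def upTo {n : ℕ} (d : Fin n → 𝓞 K) (X : ℕ) (P : 𝓞 K → Prop) : Set (𝓞 K) :=
  {D | (Algebra.norm ℤ D ≤ X ∧ InClass d D) ∧ P D}

/-- the proportion of the `D` of norm at most `X` in the class with the property `P` -/
noncomputable def proportion {n : ℕ} (d : Fin n → 𝓞 K) (P : 𝓞 K → Prop) (X : ℕ) : ℝ :=
  ((upTo d X P).ncard : ℝ) / ((upTo d X fun _ => True).ncard : ℝ)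

/-- `p = ∏_{i ≥ 0} (1 - 3^{-(2 i + 1)})` -/
noncomputable def p : ℝ := ∏' i : ℕ, (1 - (1 / 3 : ℝ) ^ (2 * i + 1))

/-- the law of the coranks of large symmetric matrices over the field with three elements -/
noncomputable def law (r : ℕ) : ℝ := p / ∏ i ∈ Finset.range r, ((3 : ℝ) ^ (i + 1) - 1)

/-- the Selmer groups of the twists `D_t` have the orders `3 ^ (r t + 1)` -/
def Coranks {n : ℕ} (d : Fin n → 𝓞 K) (D : 𝓞 K) (r : (Fin n → ZMod 3) → ℕ) : Prop :=
  ∀ t, (Sel (twist d D t : K)).ncard = 3 ^ (r t + 1)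

/-! ### The proof -/

open Pool.Agent.U854.TW (law_tw lower)
open Q283.T3B (NC low_K fin_K)
open Pool.Agent.Y696.CTK (ClsK)
open Pool.Agent.U374.BK (perD)

omit [NumberField K] in
theorem fam {n : ℕ} {d : Fin n → 𝓞 K} (hd : Family d) : Pool.Agent.U854.TW.Family d :=
  ⟨hd.three, hd.nine, hd.ind⟩

theorem law_eq (r : ℕ) : Pool.Agent.Y703.XL.cr r = law r := rfl

theorem law_zero : law 0 = p := by
  unfold law
  rw [Finset.prod_range_zero, div_one]

/-- There is a field generated by the cube roots. -/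
theorem exists_generated {n : ℕ} (d : Fin n → 𝓞 K) :
    ∃ (F : Type) (_ : Field F) (_ : NumberField F) (_ : Algebra K F), Generated d F := by
  let p : Polynomial K := ∏ i, (Polynomial.X ^ 3 - Polynomial.C (d i : K))
  let F : Type := p.SplittingField
  have : NumberField F := NumberField.of_module_finite K F
  have hp0 : p ≠ 0 := Finset.prod_ne_zero_iff.2 fun i _ =>
    Polynomial.X_pow_sub_C_ne_zero (by norm_num) _
  have hsp : (p.map (algebraMap K F)).Splits := Polynomial.SplittingField.splits p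
  have hp0' : p.map (algebraMap K F) ≠ 0 :=
    (Polynomial.map_ne_zero_iff (algebraMap K F).injective).2 hp0
  have hroot : ∀ i, ∃ x : F, x ^ 3 = algebraMap K F (d i : K) := by
    intro i
    have h1 : ((Polynomial.X ^ 3 - Polynomial.C (d i : K)).map (algebraMap K F)).Splits :=
      hsp.of_dvd hp0' (Polynomial.map_dvd _ (Finset.dvd_prod_of_mem _ (Finset.mem_univ i)))
    obtain ⟨x, hx⟩ := h1.exists_eval_eq_zero (by
      rw [Polynomial.degree_map, Polynomial.degree_X_pow_sub_C (by norm_num)]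
      norm_num)
    refine ⟨x, ?_⟩
    simp at hx
    linear_combination hx
  choose r hr using hroot
  let M : IntermediateField K F := IntermediateField.adjoin K (Set.range r)
  have hMn : NumberField M := NumberField.of_module_finite K M
  have hrM : ∀ i, r i ∈ M := fun i => IntermediateField.subset_adjoin K _ ⟨i, rfl⟩
  refine ⟨M, inferInstance, hMn, inferInstance, fun i => ⟨r i, hrM i⟩,
    fun i => ?_, fun L hL1 hL2 => ?_⟩
  · apply Subtype.ext
    exact hr i
  · rw [eq_top_iff]
    intro y _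
    let L' : IntermediateField K F :=
      { (L.map (algebraMap M F)) with
        algebraMap_mem' := fun k => ⟨algebraMap K M k, hL1 k, rfl⟩ }
    have h1 : M ≤ L' := by
      apply IntermediateField.adjoin_le_iff.2
      rintro _ ⟨i, rfl⟩
      exact ⟨_, hL2 i, rfl⟩
    obtain ⟨y', hy', h2⟩ := h1 y.2
    have h3 : y' = y := Subtype.ext h2
    rw [← h3]
    exact hy'

/-- one `D` -/
theorem one (K : Type) [Field K] [NumberField K] [IsCyclotomicExtension {3} ℚ K] {n : ℕ}
    {d : Fin n → 𝓞 K} (hd : Family d) {D : 𝓞 K} (hD : ClsK D) :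
    ∃ r : (Fin n → ZMod 3) → ℕ, Coranks d D r ∧
      (∀ t, r t = 0 → Formula (curve (twist d D t : K))) ∧
      ∀ (F : Type) [Field F] [NumberField F] [Algebra K F], Generated d F →
        Module.finrank K F = 3 ^ n ∧
        ((∀ t, r t = 0) → Formula (curve (algebraMap K F (D : K)))) := by
  obtain ⟨r, h1, h2⟩ := perD K (fam hd) hD
  refine ⟨r, fun t => (h1 t).1, fun t => (h1 t).2, fun F _ _ _ hF => ?_⟩
  obtain ⟨x, hx, hgen⟩ := hF
  exact h2 F x hx hgen

theorem coranks_unique {n : ℕ} {d : Fin n → 𝓞 K} {D : 𝓞 K} {r r' : (Fin n → ZMod 3) → ℕ}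
    (h : Coranks d D r) (h' : Coranks d D r') : r = r' := by
  funext t
  have h1 := (h t).symm.trans (h' t)
  have h2 := Nat.pow_right_injective (le_refl 2 |>.trans (by norm_num : 2 ≤ 3)) h1
  omega

/-- **Main theorem.** -/
theorem result (K : Type) [Field K] [NumberField K] [IsCyclotomicExtension {3} ℚ K] (n : ℕ)
    (d : Fin n → 𝓞 K) (hd : Family d) :
    -- the field exists, and the class has positive density
    (∃ (F : Type) (_ : Field F) (_ : NumberField F) (_ : Algebra K F), Generated d F) ∧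
    (∃ c : ℝ, 0 < c ∧ ∃ X₀ : ℕ, ∀ X : ℕ, X₀ ≤ X → c * X ≤ ((upTo d X fun _ => True).ncard : ℝ)) ∧
    -- each `D`
    (∀ D : 𝓞 K, InClass d D → ∃! r : (Fin n → ZMod 3) → ℕ, Coranks d D r ∧
      (∀ t, r t = 0 → Formula (curve (twist d D t : K))) ∧
      ∀ (F : Type) [Field F] [NumberField F] [Algebra K F], Generated d F →
        Module.finrank K F = 3 ^ n ∧
        ((∀ t, r t = 0) → Formula (curve (algebraMap K F (D : K))))) ∧
    -- the joint law of the twists
    (∀ T : Set ((Fin n → ZMod 3) → ℕ),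
      Tendsto (proportion d fun D => ∃ r ∈ T, Coranks d D r) atTop (nhds (∑' r : T, ∏ t, law (r.1 t)))) ∧
    -- the formula for the twists over `K`
    (∀ (A : Finset (Fin n → ZMod 3)) (ε : ℝ), 0 < ε → ∀ᶠ X : ℕ in atTop, p ^ A.card - ε ≤
      proportion d (fun D => ∀ t ∈ A, Formula (curve (twist d D t : K))) X) ∧
    -- the formula over `F`
    (∀ (F : Type) [Field F] [NumberField F] [Algebra K F], Generated d F → ∀ ε : ℝ, 0 < ε →
      ∀ᶠ X : ℕ in atTop, p ^ (3 ^ n) - ε ≤
        proportion d (fun D => Formula (curve (algebraMap K F (D : K)))) X) ∧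
    -- the law
    (HasSum law 1 ∧ law 0 = p ∧ 0.639 < p ∧ p < 0.6391) := by
  have hC9 := Pool.Agent.Y703.XL.t_C9
  have hset : ∀ (X : ℕ) (P : 𝓞 K → Prop), upTo d X P =
      {D | D ∈ {D : 𝓞 K | Algebra.norm ℤ D ≤ X ∧ ClsK D ∧ NC D (∏ i, d i)} ∧ P D} := by
    intro X P
    ext D
    show ((_ ∧ (_ ∧ _)) ∧ P D) ↔ ((_ ∧ _ ∧ _) ∧ P D)
    exact Iff.rfl
  have hset0 : ∀ X : ℕ, (upTo d X fun _ => True) =
      {D : 𝓞 K | Algebra.norm ℤ D ≤ X ∧ ClsK D ∧ NC D (∏ i, d i)} := by
    intro X
    rw [hset]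
    ext D
    simp
  have hfin : ∀ X : ℕ, {D : 𝓞 K | Algebra.norm ℤ D ≤ X ∧ ClsK D ∧ NC D (∏ i, d i)}.Finite :=
    fun X => fin_K K (∏ i, d i) (Pool.Agent.U854.TW.prodd_ne (fam hd)) X
  have hset2 : ∀ (X : ℕ) (P : 𝓞 K → Prop), upTo d X P =
      {D : 𝓞 K | Algebra.norm ℤ D ≤ X ∧ ClsK D ∧ NC D (∏ i, d i) ∧ P D} := by
    intro X P
    rw [hset]
    ext D
    simp only [Set.mem_ofPred_eq]
    tauto
  have hlaw : ∀ T : Set ((Fin n → ZMod 3) → ℕ),
      Tendsto (proportion d fun D => ∃ r ∈ T, Coranks d D r) atTop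
        (nhds (∑' r : T, ∏ t, law (r.1 t))) := by
    intro T
    refine (law_tw K (fam hd) T).congr fun X => ?_
    unfold proportion
    rw [hset2, hset0]
    rfl
  have hlow : ∀ (T : Set ((Fin n → ZMod 3) → ℕ)) (Q : 𝓞 K → Prop),
      (∀ D, InClass d D → (∃ r ∈ T, Coranks d D r) → Q D) → ∀ ε : ℝ, 0 < ε →
      ∀ᶠ X : ℕ in atTop, (∑' r : T, ∏ t, law (r.1 t)) - ε ≤ proportion d Q X := by
    intro T Q hQ ε hε
    have h1 := hlaw T
    have h2 : Tendsto (fun X : ℕ => ({D | D ∈ {D : 𝓞 K | Algebra.norm ℤ D ≤ X ∧ ClsK D ∧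
        NC D (∏ i, d i)} ∧ ∃ r ∈ T, Coranks d D r}.ncard : ℝ) /
        ({D : 𝓞 K | Algebra.norm ℤ D ≤ X ∧ ClsK D ∧ NC D (∏ i, d i)}.ncard : ℝ)) atTop
        (nhds (∑' r : T, ∏ t, law (r.1 t))) := by
      refine h1.congr fun X => ?_
      unfold proportion
      rw [hset, hset0]
    filter_upwards [lower hfin h2 (q := Q) (fun X D hD hp => hQ D ⟨hD.2.1, hD.2.2⟩ hp) hε] with X hX
    unfold proportion
    rw [hset, hset0]
    exact hX
  have hsum : HasSum law 1 := Pool.Agent.Y703.XL.t_SUM'
  refine ⟨exists_generated d, ?_, ?_, hlaw, ?_, ?_, ?_⟩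
  · obtain ⟨c, hc, X₀, h⟩ := low_K K (∏ i, d i) (Pool.Agent.U854.TW.prodd_ne (fam hd))
    refine ⟨c, hc, X₀, fun X hX => ?_⟩
    rw [hset0]
    exact h X hX
  · intro D hD
    obtain ⟨r, h1, h2, h3⟩ := one K hd hD.1
    exact ⟨r, ⟨h1, h2, h3⟩, fun r' hr' => coranks_unique hr'.1 h1⟩
  · intro A ε hε
    have h0 : ∑' r : {r : (Fin n → ZMod 3) → ℕ | ∀ t ∈ A, r t = 0}, ∏ t, law (r.1 t) =
        p ^ A.card := by
      have h1 := Pool.Agent.U374.BK.marg A
      have h2 : Pool.Agent.Y703.XL.cr 0 = p := by rw [law_eq, law_zero]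
      rw [h2] at h1
      exact h1
    have h1 := hlow {r | ∀ t ∈ A, r t = 0} (fun D => ∀ t ∈ A, Formula (curve (twist d D t : K)))
      (fun D hD hr t ht => by
        obtain ⟨r, hr0, hr⟩ := hr
        obtain ⟨r', h1, h2, -⟩ := one K hd hD.1
        have h4 := coranks_unique hr h1
        exact h2 t (by rw [← h4]; exact hr0 t ht)) ε hε
    rw [h0] at h1
    exact h1
  · intro F _ _ _ hF ε hε
    have h0 : ∑' r : ({0} : Set ((Fin n → ZMod 3) → ℕ)), ∏ t, law (r.1 t) = p ^ (3 ^ n) := by
      rw [tsum_singleton (0 : (Fin n → ZMod 3) → ℕ) fun r => ∏ t, law (r t)]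
      simp only [Pi.zero_apply, law_zero, Finset.prod_const, Finset.card_univ, Fintype.card_fun,
        ZMod.card, Fintype.card_fin]
    have h1 := hlow {0} (fun D => Formula (curve (algebraMap K F (D : K))))
      (fun D hD hr => by
        obtain ⟨r, hr0, hr⟩ := hr
        obtain ⟨r', h1, -, h3⟩ := one K hd hD.1
        have h4 := coranks_unique hr h1
        rw [Set.mem_singleton_iff] at hr0
        exact (h3 F hF).2 fun t => by rw [← h4, hr0]; rfl) ε hε
    rw [h0] at h1
    exact h1
  · exact ⟨hsum, law_zero, hC9.2.2.2.1, hC9.2.2.2.2⟩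

end Pool.Agent.Results.MP_ec4e4b_nt.FixedRadicalFields
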