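import Pool.Agent.U80.MQ.ISha
import Pool.Agent.R390.NoInv

/-!
# The order of vanishing formula at `p = 2` over all the number fields of an infinite tower, for an exact
# proportion of the twists of `X_0(49)` and of the fibres of an elliptic surface

`E_D : y² = x³ - 35 D² x - 98 D³` is the twist of `X_0(49)` by `D`, a squarefree product of primes
`≡ 1 mod 4`. Let `K_∞(D) = ℚ(√q)`, where `q` runs through all the primes `≡ 1 mod 4` that are inert in
`ℚ(√-7)` and squares modulo all the prime factors of `D` that split in `ℚ(√-7)`; `[K_∞(D) : ℚ] = ∞`.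

* Suppose that `E_D(ℚ)` is finite and `Ш(E_D/ℚ)[2] = 0`. Then for ALL the number fields `K` contained in
  `K_∞(D)` the formula of the problem holds for the motive `M = h¹(E_D)(1)` over `K` and `p = 2`, both sides
  being zero: `L(s, M) = L(E_D/K, s + 1)` is entire and not zero at `s = 0`, and `H⁰(K, V_2 E_D)` and the
  Bloch–Kato Selmer group `H¹_f(K, V_2 E_D)` are zero.
* This is the case for exactly the proportion `c = ∏_{i ≥ 0} (1 - 2^{-(2i+1)}) = 0.4194...` of the `D`, and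
  for exactly the proportion `c` of the fibres of the surface `(t² + 1) y² = x³ - 35 x - 98` at the rational
  numbers `t = a / b` with `a² + b²` odd and squarefree; so the formula holds over all the number fields of an
  infinite tower for a positive proportion of ALL rational numbers `t`.

The Euler factors at the places that divide `2 (4 A³ + 27 B²)` are omitted from the `L`-function; they have
no zero and no pole at the centre.

The proof: `MP_32c55d_nt/InertTowersX49` (`L`-functions and rational points), `U80/MQ/ISha`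
(`Ш(E_D/K)[2^∞]` is killed by `[K : ℚ]`) and the theorems of helper667 (`Y667/BKP`) and helper390.
-/

set_option autoImplicit false

open scoped Classical

open WeierstrassCurve NumberField IsDedekindDomain

namespace Pool.Agent.Results.MP_ec4e4b_nt.InertTowersX49

open Pool.Agent.TH841.NF.D (Sha)
open Pool.Agent.TH841.SH.D (Gal act)
open Pool.Agent.Y667.BKP (H1f PSeq IsV)

/-- the coefficient of `x` -/
def A (D : ℕ) : ℤ := -35 * (D : ℤ) ^ 2

/-- the constant coefficient -/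
def B (D : ℕ) : ℤ := -98 * (D : ℤ) ^ 3

/-- the curve `E_D : y² = x³ - 35 D² x - 98 D³` over `K` -/
def curve (D : ℕ) (K : Type) [Field K] : WeierstrassCurve K :=
  { a₁ := 0, a₂ := 0, a₃ := 0, a₄ := ((A D : ℤ) : K), a₆ := ((B D : ℤ) : K) }

/-- squarefree products of primes `≡ 1 mod 4` -/
def Class (D : ℕ) : Prop := Squarefree D ∧ ∀ p ∈ D.primeFactors, p % 4 = 1

/-- `E_D(ℚ)` is finite and `Ш(E_D/ℚ)` has no element of order two -/
def TrivialTwo (D : ℕ) : Prop :=
  Finite (curve D ℚ).toAffine.Point ∧ ∀ x : Sha (curve D ℚ), 2 • x = 0 → x = 0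

/-- `a_v = q_v + 1 - #E(k_v) = q_v - #{(x, y) ∈ k_v² : y² = x³ + a x + b}` -/
noncomputable def trace {K : Type} [Field K] [NumberField K] (a b : ℤ)
    (v : HeightOneSpectrum (𝓞 K)) : ℤ :=
  ((Ideal.absNorm v.asIdeal : ℕ) : ℤ) -
    ((Nat.card {x : (𝓞 K ⧸ v.asIdeal) × (𝓞 K ⧸ v.asIdeal) //
      x.2 ^ 2 = x.1 ^ 3 + (a : 𝓞 K ⧸ v.asIdeal) * x.1 + (b : 𝓞 K ⧸ v.asIdeal)} : ℕ) : ℤ)

/-- the Euler factor at `v` of `y² = x³ + a x + b`; it is `1` at the places that divide
`2 (4 a³ + 27 b²)` -/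
noncomputable def factor {K : Type} [Field K] [NumberField K] (a b : ℤ) (s : ℂ)
    (v : HeightOneSpectrum (𝓞 K)) : ℂ :=
  if ((2 * (4 * a ^ 3 + 27 * b ^ 2) : ℤ) : 𝓞 K) ∈ v.asIdeal then 1 else
    (1 - ((trace a b v : ℤ) : ℂ) * ((Ideal.absNorm v.asIdeal : ℕ) : ℂ) ^ (-s)
      + ((Ideal.absNorm v.asIdeal : ℕ) : ℂ) ^ (1 - 2 * s))⁻¹

/-- `H⁰(K, V_2 W) = 0`: the elements of `V_2 W` that are fixed by the Galois group are zero -/
def NoInvariants {K : Type} [Field K] (W : WeierstrassCurve K) : Prop :=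
  ∀ x : PSeq W, IsV 2 W x → (∀ (σ : Gal K) (n : ℕ), act W σ.toAlgHom (x n) = x n) → ∀ n, x n = 0

/-- the order of vanishing formula for `h¹(E_D)(1)` over `K` and `p = 2`, with both sides zero: `E_D` is an
elliptic curve, the Euler product (without the factors at the places that divide `2 (4 A³ + 27 B²)`)
is an entire function that is not zero at `1`, and `H⁰(K, V_2 E_D)` and `H¹_f(K, V_2 E_D)` are zero -/
def Formula (D : ℕ) (K : Type) [Field K] [NumberField K] : Prop :=
  (curve D K).IsElliptic ∧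
  (∃ Λ : ℂ → ℂ, Differentiable ℂ Λ ∧
    (∀ s : ℂ, (3 : ℝ) / 2 < s.re → HasProd (factor (K := K) (A D) (B D) s) (Λ s)) ∧ Λ 1 ≠ 0) ∧
  NoInvariants (curve D K) ∧ ∀ x : H1f 2 (curve D K), x = 0

/-- the primes `q ≡ 1 mod 4`, inert in `ℚ(√-7)`, that are squares modulo the prime factors of `D` that split
in `ℚ(√-7)` -/
def TowerPrime (D q : ℕ) : Prop :=
  q.Prime ∧ q % 4 = 1 ∧ (q % 7 = 3 ∨ q % 7 = 5 ∨ q % 7 = 6) ∧
    ∀ p ∈ D.primeFactors, (p % 7 = 1 ∨ p % 7 = 2 ∨ p % 7 = 4) → IsSquare (q : ZMod p)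

/-- the field generated by the square roots of these primes -/
noncomputable def Tower (D : ℕ) : IntermediateField ℚ ℂ :=
  IntermediateField.adjoin ℚ {z : ℂ | ∃ q : ℕ, TowerPrime D q ∧ z ^ 2 = (q : ℂ)}

/-- the formula for `E_D` over all the number fields in the tower -/
def AllFields (D : ℕ) : Prop :=
  ∀ K : IntermediateField ℚ ℂ, K ≤ Tower D → FiniteDimensional ℚ K →
    ∃ _ : NumberField K, Formula D K

/-- the height `a² + b²` of the rational number `t = a / b` in lowest terms -/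
def height (t : ℚ) : ℕ := t.num.natAbs ^ 2 + t.den ^ 2

/-- the numbers `D ≤ X` of the class with the property `Q` -/
noncomputable def Numbers (Q : ℕ → Prop) (X : ℕ) : Finset ℕ :=
  (Finset.Icc 1 X).filter fun D => Class D ∧ Q D

/-- the rational numbers `t` of height at most `X`, the height being odd and squarefree, with the
property `Q` of the height -/
def Params (Q : ℕ → Prop) (X : ℕ) : Set ℚ :=
  {t | height t ≤ X ∧ Odd (height t) ∧ Squarefree (height t) ∧ Q (height t)}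

/-- the constant `0.4194...` -/
noncomputable def cc : ℝ := ∏' i : ℕ, (1 - (1 / 2 : ℝ) ^ (2 * i + 1))

section proof

open Pool.Agent.Results.MP_696deb_nt.SumsOfTwoSquares (adm_of par_pat box_fin box_card)
open Pool.Agent.Results.MP_4a9ea6_nt.TwoPartTwistsX49 (Adm)
open Pool.Agent.Results.MP_32c55d_nt.InertTowersX49 (par1 cl1)

theorem all_of {D : ℕ} (hA : Adm D) (h : TrivialTwo D) : AllFields D := by
  intro K hK hfd
  obtain ⟨hN, hfin, -, Λ, h1, h2, -, h3⟩ :=
    Pool.Agent.Results.MP_32c55d_nt.InertTowersX49.all_of hA h K hK hfd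
  obtain ⟨hN', -, -, h5, n, h6, -⟩ :=
    Pool.Agent.U80.MQ.ISha.all_of hA h K hK hfd
  refine ⟨hN, ?_, ⟨Λ, h1, h2, h3⟩, fun x hx hfix => Pool.Agent.R390.noinv hfin x hx hfix,
    Pool.Agent.Y667.BKP.h1f_zero Nat.prime_two hfin n fun k x hx => ?_⟩
  · rw [WeierstrassCurve.isElliptic_iff, isUnit_iff_ne_zero]
    exact Pool.Agent.U80.MQ.tc_disc hA.1.ne_zero K
  · have h7 := h5 x ⟨k, hx⟩
    have h8 : Module.finrank ℚ K = 2 ^ n := h6
    rw [← h8]
    exact h7

theorem pos_all : ∃ (c : ℝ) (X₀ : ℕ), 0 < c ∧ ∀ X : ℕ, X₀ ≤ X →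
    c * X ≤ ((Params AllFields X).ncard : ℝ) := by
  obtain ⟨c, X₀, hc0, h⟩ := Pool.Agent.U80.WQ.joint_count cl1 (Finset.Subset.refl ({1} : Finset ℕ))
  refine ⟨c, X₀, hc0, fun X hX => ?_⟩
  have h1 := h X hX
  rw [← par_pat cl1, ← par1] at h1
  have h3 : (Pool.Agent.Results.MP_32c55d_nt.InertTowersX49.Params
      Pool.Agent.Results.MP_32c55d_nt.InertTowersX49.TrivialTwo X).ncard ≤
      (Params AllFields X).ncard := by
    refine Set.ncard_le_ncard (fun t ht => ⟨ht.1, ht.2.1, ht.2.2.1, ?_⟩)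
      ((Pool.Agent.U80.WQ.finite_ht X).subset fun t ht => ht.1)
    exact all_of (adm_of ht.2.1 ht.2.2.1) ht.2.2.2
  exact h1.trans (by exact_mod_cast h3)

end proof

/-- **Theorem.** -/
theorem result :
    (∀ D : ℕ, Class D → {q : ℕ | TowerPrime D q}.Infinite ∧ ¬ FiniteDimensional ℚ (Tower D) ∧
      (TrivialTwo D → AllFields D)) ∧
    Filter.Tendsto (fun X : ℕ => ((Numbers TrivialTwo X).card : ℝ) /
      ((Numbers (fun _ => True) X).card : ℝ)) Filter.atTop (nhds cc) ∧
    (∀ (t : ℚ) (K : Type) [Field K] [CharZero K] (x y : K),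
      ((t : K) ^ 2 + 1) * y ^ 2 = x ^ 3 - 35 * x - 98 ↔
        (curve (height t) K).toAffine.Equation (height t * x)
          ((height t : K) ^ 2 / t.den * y)) ∧
    (∀ t : ℚ, Odd (height t) → Squarefree (height t) → Class (height t)) ∧
    Filter.Tendsto (fun X : ℕ => ((Params TrivialTwo X).ncard : ℝ) /
      ((Params (fun _ => True) X).ncard : ℝ)) Filter.atTop (nhds cc) ∧
    0.4194 < cc ∧ cc < 0.4195 ∧
    ∃ (c : ℝ) (X₀ : ℕ), 0 < c ∧ ∀ X : ℕ, X₀ ≤ X →
      c * ({t : ℚ | height t ≤ X}.ncard : ℝ) ≤ ((Params AllFields X).ncard : ℝ) ∧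
      c * ({t : ℚ | max t.num.natAbs t.den ≤ X}.ncard : ℝ) ≤
        ({t : ℚ | max t.num.natAbs t.den ≤ X ∧ Odd (height t) ∧ Squarefree (height t) ∧
          AllFields (height t)}.ncard : ℝ) := by
  obtain ⟨h1, h2, h3, h4, h5, h6, h7, -⟩ :=
    Pool.Agent.Results.MP_32c55d_nt.InertTowersX49.result
  refine ⟨fun D hD => ⟨(h1 D hD).1, (h1 D hD).2.1, all_of hD⟩, h2, h3, h5, h4, h6, h7, ?_⟩
  obtain ⟨c, X₀, hc0, h⟩ := pos_all
  refine ⟨c / 6, X₀ + 1, by positivity, fun X hX => ⟨?_, ?_⟩⟩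
  · have h1 := h X (by omega)
    have h2 : ({t : ℚ | height t ≤ X}.ncard : ℝ) ≤ 3 * X := Pool.Agent.U80.WQ.total_t X
    refine le_trans ?_ h1
    have h3 : (0 : ℝ) ≤ X := Nat.cast_nonneg X
    calc c / 6 * ({t : ℚ | height t ≤ X}.ncard : ℝ) ≤ c / 6 * (3 * X) :=
          mul_le_mul_of_nonneg_left h2 (by positivity)
      _ ≤ c * X := by nlinarith
  · have hX1 : X ≤ X ^ 2 := Nat.le_self_pow (by norm_num) X
    have h1 := h (X ^ 2) (by omega)
    have h2 : ({t : ℚ | max t.num.natAbs t.den ≤ X}.ncard : ℝ) ≤ 6 * X ^ 2 :=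
      Pool.Agent.Results.MP_696deb_nt.SumsOfTwoSquares.box_card (by omega)
    have h3 : Params AllFields (X ^ 2) ⊆
        {t : ℚ | max t.num.natAbs t.den ≤ X ∧ Odd (height t) ∧ Squarefree (height t) ∧
          AllFields (height t)} := by
      rintro t ⟨h4, h5⟩
      refine ⟨?_, h5⟩
      have h6 : t.num.natAbs ^ 2 + t.den ^ 2 ≤ X ^ 2 := h4
      refine max_le ?_ ?_
      · exact (Nat.pow_le_pow_iff_left (by norm_num : (2 : ℕ) ≠ 0)).1 (by omega)
      · exact (Nat.pow_le_pow_iff_left (by norm_num : (2 : ℕ) ≠ 0)).1 (by omega)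
    have h4 := Set.ncard_le_ncard h3
      ((Pool.Agent.Results.MP_696deb_nt.SumsOfTwoSquares.box_fin X).subset fun t ht => ht.1)
    have h5 : ((Params AllFields (X ^ 2)).ncard : ℝ) ≤
        ({t : ℚ | max t.num.natAbs t.den ≤ X ∧ Odd (height t) ∧ Squarefree (height t) ∧
          AllFields (height t)}.ncard : ℝ) := by
      exact_mod_cast h4
    push_cast at h1
    refine le_trans ?_ (h1.trans h5)
    calc c / 6 * ({t : ℚ | max t.num.natAbs t.den ≤ X}.ncard : ℝ) ≤ c / 6 * (6 * X ^ 2) :=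
          mul_le_mul_of_nonneg_left h2 (by positivity)
      _ = c * X ^ 2 := by ring

end Pool.Agent.Results.MP_ec4e4b_nt.InertTowersX49
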