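import Pool.Agent.U693.CT.Core
import Pool.Agent.U374.BK.Tower

/-!
# The order of vanishing formula at `p = 3` over ALL number fields in infinite cubic towers generated by
# primes of ARBITRARY sets

`K` is the field of the third roots of unity, `E_D : y² + D y = x³`. For a curve `W` over a number field
`k` the motive `M = h¹(W)(1)` over `k` is polarized, `L(s, M) = L(W/k, s + 1)` and `M_3 = V_3 W`.
`Formula W` is the formula of the problem for `M` and `p = 3`, with both sides zero: the complete
`L`-series of Mathlib (with the Euler factors at all the places) converges for `Re s > 2` and extends to a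
meromorphic function on the plane which is analytic and not zero at `s = 1`, and `H⁰(k, V_3 W)` and the
Bloch–Kato Selmer group `H¹_f(k, V_3 W)` are zero.

For a set `T` of primary primes (prime elements `≡ 1 mod 3`) let `K_T = K(∛(p / q) : p, q ∈ T)`, in a fixed
algebraic closure; `Gal(K_T/K)` is an elementary abelian `3`-group. `Tower D T` says:

* `[K_A : K] = 3 ^ (#A - 1)` for the finite subsets `A ≠ ∅` of `T`;
* the formula holds for `h¹(E_D)(1)` over ALL the number fields `F` with `K ⊆ F ⊆ K_T`;
* for all the products `M` of `3 m` (not necessarily different) elements of `T`, `m ≥ 0`, the formula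
  holds for `h¹(E_{D M})(1)` over `K`, `E_{D M}(K)` is finite and `Ш(E_{D M}/K)[3^∞] = 0`.

Let `D` be good: squarefree, `≡ 1 mod 3`, of norm not `≡ 1 mod 9`, with `E_D(K)` finite and
`Ш(E_D/K)[3^∞] = 0`; for instance any primary prime of norm not `≡ 1 mod 9`.

* INFINITE SETS: let `S` be ANY infinite set of primary primes. There is an infinite `T ⊆ S` such that
  `K_T` is of infinite degree over `K` and `Tower D T`, if and only if `D` is not a cube modulo infinitely
  many elements of `S`.
* FINITE SETS: if `S` is ANY finite set of primary primes modulo which `D` is not a cube, with at least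
  `N = 3 ^ (3 k + ω(D) + 1)` elements, `k ≥ 1`, then `Tower D A` for at least
  `(|S| choose k) / (N choose k)` of the `k`-subsets `A` of `S`.

The fields `K(∛d₁, …, ∛dₙ)` for one and the same `dᵢ` and a positive proportion of the `D` are the subject
of `FixedRadicalFields` (helper374), the source of the passage from finite groups of points and bounded
`Ш[3^∞]` to the formula (`U374/BK/Tower`, with `Y667/BKP` and `U854/TW`). Here `D` is fixed, there is no
average, the primes are from an arbitrary thin set, and the number fields are all those inside an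
infinite extension. New: the extension of a nonsingular Laplacian over `𝔽₃` by a homogeneous set of
primes with arbitrary weights of sum zero, the theorem of Ramsey, and the description of the number fields
between `K` and `K_T` (`Pool/Agent/U693/CT`, written for `MP_32c55d_nt/CubicTowersArbitraryPrimes`, which is
the rank conjecture for the incomplete Euler products; the Selmer groups of Bloch and Kato and the complete
`L`-series do not occur there).

`H1f 3 W` (`Pool.Agent.Y667.BKP.H1f`, by helper667) is the group of the classes of the continuous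
cocycles of the absolute Galois group with values in `V_3 W = T_3 W ⊗ ℚ_3` whose restriction to the
completion at every place is in the image of the Kummer map; this is the condition of Bloch and Kato. An
element of `V_3 W` is described by a sequence of points (`IsV 3 W`).
-/

set_option autoImplicit false

open scoped Classical

namespace Pool.Agent.Results.MP_ec4e4b_nt.InfiniteCubicTowers

open NumberField IsDedekindDomain WeierstrassCurve
open Pool.Agent.TH841.NF.D (Sha)
open Pool.Agent.TH841.SH.D (Gal act)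
open Pool.Agent.Y667.BKP (H1f PSeq IsV)

/-- The curve `E_D : y² + D y = x³`. -/
def curve {F : Type} [Field F] (D : F) : WeierstrassCurve F := ⟨0, 0, D, 0, 0⟩

/-- `H⁰(F, V_3 W) = 0`: the elements of `V_3 W` that are fixed by the Galois group are zero. -/
def NoInvariants {F : Type} [Field F] (W : WeierstrassCurve F) : Prop :=
  ∀ x : PSeq W, IsV 3 W x → (∀ (σ : Gal F) (n : ℕ), act W σ.toAlgHom (x n) = x n) → ∀ n, x n = 0

/-- The order of vanishing formula for `h¹(W)(1)` and `p = 3`, both sides being zero: `W` is an elliptic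
curve, its `L`-series (of Mathlib) converges for `Re s > 2` and extends to a meromorphic function on
the plane that is analytic and not zero at `1`, and `H⁰(F, V_3 W)` and `H¹_f(F, V_3 W)` are zero. -/
def Formula {F : Type} [Field F] [NumberField F] (W : WeierstrassCurve F) : Prop :=
  W.IsElliptic ∧
  (∃ L : ℂ → ℂ, MeromorphicOn L Set.univ ∧
    (∀ s : ℂ, 2 < s.re → LSeriesSummable ((fun n : ℤ => (n : ℂ)) ∘ W.LFunction) s ∧
      L s = W.LSeries s) ∧ AnalyticAt ℂ L 1 ∧ L 1 ≠ 0) ∧
  NoInvariants W ∧ ∀ x : H1f 3 W, x = 0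

variable {K : Type} [Field K] [NumberField K]

/-- prime elements `≡ 1 mod 3`; every prime element prime to `3` has exactly one such associate -/
def PrimaryPrime (q : 𝓞 K) : Prop := Prime q ∧ (3 : 𝓞 K) ∣ q - 1

/-- `a` is a cube modulo `q` -/
def CubeMod (q a : 𝓞 K) : Prop := ∃ b : 𝓞 K, q ∣ a - b ^ 3

/-- the number of the primary primes dividing `D` -/
noncomputable def omega (D : 𝓞 K) : ℕ := {q : 𝓞 K | PrimaryPrime q ∧ q ∣ D}.ncard

/-- `E_D(K)` is finite and `Ш(E_D / K)[3^∞] = 0`. -/
def FiniteAndTrivial (D : 𝓞 K) : Prop :=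
  Finite (curve (D : K)).toAffine.Point ∧ ∀ (k : ℕ) (y : Sha (curve (D : K))), 3 ^ k • y = 0 → y = 0

/-- `D` is squarefree, `≡ 1 mod 3`, of norm not `≡ 1 mod 9`, and `E_D(K)` is finite,
`Ш(E_D/K)[3^∞] = 0` -/
def Good (D : 𝓞 K) : Prop :=
  ((3 : 𝓞 K) ∣ D - 1 ∧ Squarefree D ∧ ¬ (9 : ℤ) ∣ Algebra.norm ℤ D - 1) ∧ FiniteAndTrivial D

/-- the field `K_T = K(∛(p / q) : p, q ∈ T)` inside an algebraic closure of `K` -/
noncomputable def CubeField (T : Set (𝓞 K)) : IntermediateField K (AlgebraicClosure K) :=
  IntermediateField.adjoin K {z | ∃ p ∈ T, ∃ q ∈ T,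
    z ^ 3 * algebraMap K (AlgebraicClosure K) (q : K) = algebraMap K (AlgebraicClosure K) (p : K)}

/-- The degrees of the fields `K_A`, `A ⊆ T` finite, are `3 ^ (#A - 1)`; for the products `M` of `3 m`
elements of `T` the formula holds for `h¹(E_{D M})(1)` over `K`, `E_{D M}(K)` is finite and
`Ш(E_{D M}/K)[3^∞] = 0`; and for all the number fields `F` between `K` and `K_T` the formula holds for
`h¹(E_D)(1)` over `F`. -/
def Tower (D : 𝓞 K) (T : Set (𝓞 K)) : Prop :=
  (∀ A : Finset (𝓞 K), A.Nonempty → (A : Set (𝓞 K)) ⊆ T →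
    Module.finrank K (CubeField (A : Set (𝓞 K))) = 3 ^ (A.card - 1)) ∧
  (∀ M : Multiset (𝓞 K), (∀ p ∈ M, p ∈ T) → 3 ∣ M.card →
    FiniteAndTrivial (D * M.prod) ∧ Formula (curve ((D * M.prod : 𝓞 K) : K))) ∧
  ∀ F : IntermediateField K (AlgebraicClosure K), F ≤ CubeField T → FiniteDimensional K F →
    ∃ _ : NumberField F, Formula (curve (algebraMap K F (D : K)))

section proof

open Pool.Agent.U693.CT
open Pool.Agent.U693.EisK (Gd3)
open Pool.Agent.U374.BK (ovm_of ovm_K)

theorem tower_of [IsCyclotomicExtension {3} ℚ K] {D : 𝓞 K} (hD : Good D) {T : Set (𝓞 K)}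
    (hne : T.Nonempty) (h : Cor D T) : Tower D T := by
  obtain ⟨h1, h2, h3⟩ := h
  obtain ⟨p₀, hp₀⟩ := hne
  refine ⟨fun A hA hAT => deg_cf hD.1 h1 h2 hAT hA, fun M hM hM3 => ?_, fun F hF hfd => ?_⟩
  · have hG : Gam T M.prod := ⟨M, hM, hM3, rfl⟩
    exact ⟨h3 _ hG, ovm_K K hD.1 (gam_three h1 hG) (h2 _ hG) (h3 _ hG)⟩
  · have hN : NumberField F := NumberField.of_module_finite K F
    obtain ⟨n, d, hG, -, ⟨L, l1, l2, l3⟩, g5, g6⟩ := main_F hD.1 h1 h2 h3 hp₀ F hF hfd hN
    have hD0 : D ≠ 0 := by
      rintro rfl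
      exact not_squarefree_zero hD.1.2.1
    have hd0 : d ≠ 0 := by
      rintro rfl
      have h4 := h2 _ hG
      rw [Algebra.norm_zero] at h4
      norm_num at h4
    have hBD : (3 : 𝓞 F) * algebraMap (𝓞 K) (𝓞 F) D ∣ algebraMap (𝓞 K) (𝓞 F) (3 * D * d) := by
      rw [map_mul (algebraMap (𝓞 K) (𝓞 F)) (3 * D), map_mul (algebraMap (𝓞 K) (𝓞 F)) 3, map_ofNat]
      exact dvd_mul_right _ _
    have hB0 : algebraMap (𝓞 K) (𝓞 F) (3 * D * d) ≠ 0 := by
      rw [Ne, FaithfulSMul.algebraMap_eq_zero_iff]
      exact mul_ne_zero (mul_ne_zero (by norm_num) hD0) hd0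
    exact ⟨hN, ovm_of hB0 hBD l1 l2 l3 g5 g6⟩

end proof

/-- **Main theorem.** -/
theorem result (K : Type) [Field K] [NumberField K] [IsCyclotomicExtension {3} ℚ K] :
    (∀ q : 𝓞 K, PrimaryPrime q → ¬ (9 : ℤ) ∣ Algebra.norm ℤ q - 1 → Good q) ∧
    ∀ D : 𝓞 K, Good D →
      -- infinite sets
      (∀ S : Set (𝓞 K), (∀ q ∈ S, PrimaryPrime q) →
        ((∃ T ⊆ S, T.Infinite ∧ ¬ FiniteDimensional K (CubeField T) ∧ Tower D T) ↔
          {q ∈ S | ¬ CubeMod q D}.Infinite)) ∧
      -- finite sets
      (∀ (k : ℕ) (S : Finset (𝓞 K)), 1 ≤ k → (∀ q ∈ S, PrimaryPrime q ∧ ¬ CubeMod q D) →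
        3 ^ (3 * k + omega D + 1) ≤ S.card →
        S.card.choose k ≤ (3 ^ (3 * k + omega D + 1)).choose k *
          ((S.powersetCard k).filter fun A : Finset (𝓞 K) => Tower D (A : Set (𝓞 K))).card) := by
  obtain ⟨⟨j, hj⟩, -⟩ := Pool.Agent.Y455.CTK.jex K
  refine ⟨fun q hq hN => Pool.Agent.U693.EisK.prime_K j hj hq hN, fun D hD => ⟨fun S hS => ?_,
    fun k S hk hS hc => ?_⟩⟩
  · constructor
    · rintro ⟨T, hTS, hTi, -, hT⟩
      refine Pool.Agent.U693.CT.inf_conv hD hS hTS hTi fun d hd => ?_
      obtain ⟨M, h1, h2, rfl⟩ := hd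
      exact (hT.2.1 M h1 h2).1
    · intro hI
      obtain ⟨T, hTS, hTi, hT⟩ := Pool.Agent.U693.CT.inf_cor hD hS hI
      exact ⟨T, hTS, hTi, Pool.Agent.U693.CT.cf_inf hD.1 hT.1 hT.2.1 hTi,
        tower_of hD hTi.nonempty hT⟩
  · refine (Pool.Agent.U693.CT.fin_cor hD k S hS hc).trans (Nat.mul_le_mul_left _ ?_)
    refine Finset.card_le_card ?_
    intro A hA
    rw [Finset.mem_filter] at hA ⊢
    refine ⟨hA.1, tower_of hD ?_ hA.2⟩
    have h1 := (Finset.mem_powersetCard.1 hA.1).2
    have h2 : A.Nonempty := Finset.card_pos.1 (by omega)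
    exact_mod_cast h2

end Pool.Agent.Results.MP_ec4e4b_nt.InfiniteCubicTowers
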