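import Pool.Agent.R430.T1
import Pool.Agent.R390.NoInv

/-!
# The order of vanishing formula at `p = 2` for `h¹(E)(1)`, `E : y² + y = x³`, over infinitely many
# nonabelian towers: the multiquadratic extensions of every quadratic extension of `ℚ(√-3)` with good
# ramification, and the fields below them

Call a prime of a number field good when `2` is not a cube modulo it.  Let `F = ℚ(√-3)`, let `N/F` be
ANY quadratic extension in which only good primes ramify (any class number; in general `N` is not
Galois over `ℚ`), let `K/N` be any Galois extension of exponent two in which only good primes ramify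
(or an abelian extension of degree `2 ^ n` with an Artin map whose modulus has only good prime
divisors), and let `k` be any field, real, complex or mixed, with `k(√-3) = K`, for example `k = K`.
In general `k` is not abelian, and not Galois, over `ℚ`, so that the motive `h¹(E)(1)` over `k` is, over
`ℚ`, the tensor product of `h¹(E)(1)` with an Artin motive with a nonabelian image.

Theorem: the formula of the problem holds for the polarized motive `M = h¹(E)(1)` over `k` and `p = 2`,
both sides being zero: the complete `L`-series `L(s, M) = L(E/k, s + 1)` (the `L`-series of Mathlib,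
with the Euler factors at all the places) converges for `Re s > 1/2` and extends to a meromorphic
function on the plane, analytic and not zero at `s = 0`, and `H⁰(k, V_2 E) = 0`, `H¹_f(k, V_2 E) = 0`.

The earlier hand-ins on this problem treat twists over a fixed imaginary quadratic field or over cubic
extensions of it; for the totally real `k` the statement about the Selmer group is in
`MP_6e2fc3_nt.NonabelianTotallyReal`, which concerns Hilbert modular forms.  The central values and the
2-descent are from the starting library (`Pool.Agent.R430`, `Pool.Agent.Y696`; the 2-part of the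
conjecture of Birch and Swinnerton-Dyer for these fields is `MP_9ab903_nt.TwoPartQuadraticBase`).

`H1f 2 W` (`Pool.Agent.Y667.BKP.H1f`, starting library of helper667) is the group of the classes of
the continuous cocycles of the absolute Galois group with values in `V_2 W = T_2 W ⊗ ℚ_2` whose
restriction to the completion at every place is in the image of the Kummer map; this is the condition
of Bloch and Kato.  An element of `V_2 W` is described by a sequence of points (`IsV 2 W`).
-/

set_option autoImplicit false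

namespace Pool.Agent.Results.MP_ec4e4b_nt.NonabelianQuadraticBase

open NumberField IsDedekindDomain Pool.Agent.Y696
open Pool.Agent.TH841.SH.D (Gal act)
open Pool.Agent.Y667.BKP (H1f PSeq IsV)
open scoped Classical

/-- only primes modulo which `2` is not a cube ramify in `K/F`: if `σ ≠ 1` lies in the inertia group of
the prime `w` of `K`, then `2` is not a cube modulo the prime of `F` below `w` -/
def GoodRam (F K : Type) [Field F] [NumberField F] [Field K] [NumberField K] [Algebra F K] : Prop :=
  ∀ (w : HeightOneSpectrum (𝓞 K)) (σ : Gal(K/F)), (∀ x : 𝓞 K, σ • x - x ∈ w.asIdeal) → σ ≠ 1 →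
    ∀ α : 𝓞 F, α ^ 3 - 2 ∉ w.asIdeal.under (𝓞 F)

/-- `Φ` is an Artin map modulo the ideal `𝔪` of the Galois extension `K/F` (`F` has no real place): on
the non-zero ideals prime to `𝔪` it is multiplicative, it is trivial on the ideals `(α)` with
`α - 1 ∈ 𝔪`, `α ≠ 0`, the inertia groups of the primes of `K` not above a prime divisor of `𝔪` are
trivial, and `Φ(𝔭)` acts as a Frobenius automorphism at the primes of `K` above `𝔭`, `𝔭 ∤ 𝔪` -/
structure ArtinMap {F K : Type} [Field F] [NumberField F] [Field K] [NumberField K] [Algebra F K]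
    (𝔪 : Ideal (𝓞 F)) (Φ : Ideal (𝓞 F) → Gal(K/F)) : Prop where
  mul : ∀ I J : Ideal (𝓞 F), I ≠ ⊥ → J ≠ ⊥ → IsCoprime I 𝔪 → IsCoprime J 𝔪 → Φ (I * J) = Φ I * Φ J
  ray : ∀ α : 𝓞 F, α ≠ 0 → α - 1 ∈ 𝔪 → Φ (Ideal.span {α}) = 1
  unram : ∀ w : HeightOneSpectrum (𝓞 K), ¬ 𝔪 ≤ w.asIdeal.under (𝓞 F) →
    ∀ σ : Gal(K/F), (∀ x : 𝓞 K, σ • x - x ∈ w.asIdeal) → σ = 1
  frob : ∀ w : HeightOneSpectrum (𝓞 K), ¬ 𝔪 ≤ w.asIdeal.under (𝓞 F) → ∀ x : 𝓞 K,
    Φ (w.asIdeal.under (𝓞 F)) • x - x ^ Nat.card (𝓞 F ⧸ w.asIdeal.under (𝓞 F)) ∈ w.asIdeal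

/-- the hypothesis on `K/N`: its Galois group has exponent `2` and only good primes ramify, or it is
abelian of degree `2 ^ n` and has an Artin map modulo an ideal `𝔪 ≠ 0` with only good prime divisors -/
def Admissible (N K : Type) [Field N] [NumberField N] [Field K] [NumberField K] [Algebra N K] : Prop :=
  (GoodRam N K ∧ ∀ σ : Gal(K/N), σ * σ = 1) ∨
    ((∃ n : ℕ, Module.finrank N K = 2 ^ n) ∧ (∀ σ τ : Gal(K/N), σ * τ = τ * σ) ∧
      ∃ 𝔪 : Ideal (𝓞 N), 𝔪 ≠ ⊥ ∧
        (∀ v : HeightOneSpectrum (𝓞 N), 𝔪 ≤ v.asIdeal → ∀ α : 𝓞 N, α ^ 3 - 2 ∉ v.asIdeal) ∧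
        ∃ Φ : Ideal (𝓞 N) → Gal(K/N), ArtinMap 𝔪 Φ)

/-- The curve `E : y² + y = x³` over `k`. -/
def curve (k : Type) [Field k] : WeierstrassCurve k := ⟨0, 0, 1, 0, 0⟩

/-- `H⁰(k, V_2 W) = 0`: the elements of `V_2 W` that are fixed by the Galois group are zero. -/
def NoInvariants {k : Type} [Field k] (W : WeierstrassCurve k) : Prop :=
  ∀ x : PSeq W, IsV 2 W x → (∀ (σ : Gal k) (n : ℕ), act W σ.toAlgHom (x n) = x n) → ∀ n, x n = 0

/-- The order of vanishing formula for `h¹(W)(1)` and `p = 2`, both sides being zero: `W` is an elliptic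
curve, its `L`-series (of Mathlib) converges for `Re s > 3/2` and extends to a meromorphic function on
the plane that is analytic and not zero at `1`, and `H⁰(k, V_2 W)` and `H¹_f(k, V_2 W)` are zero. -/
def Formula {k : Type} [Field k] [NumberField k] (W : WeierstrassCurve k) : Prop :=
  W.IsElliptic ∧
  (∃ L : ℂ → ℂ, MeromorphicOn L Set.univ ∧
    (∀ s : ℂ, (3 / 2 : ℝ) < s.re → LSeriesSummable ((fun n : ℤ => (n : ℂ)) ∘ W.LFunction) s ∧
      L s = W.LSeries s) ∧ AnalyticAt ℂ L 1 ∧ L 1 ≠ 0) ∧
  NoInvariants W ∧ ∀ x : H1f 2 W, x = 0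

theorem elliptic (k : Type) [Field k] [CharZero k] : (curve k).IsElliptic := by
  refine ⟨isUnit_iff_ne_zero.2 ?_⟩
  have h1 : (curve k).Δ = -27 := by
    simp only [curve, WeierstrassCurve.Δ, WeierstrassCurve.b₂, WeierstrassCurve.b₄,
      WeierstrassCurve.b₆, WeierstrassCurve.b₈]
    norm_num
  rw [h1]
  norm_num

/-- **Main theorem.**  Let `F = ℚ(√-3)`, let `N/F` be a quadratic extension in which only good primes
ramify, `K/N` an admissible Galois extension and `k` a number field with `k(√-3) = K`.  Then the order of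
vanishing formula holds for the motive `h¹(E)(1)` over `k`, `E : y² + y = x³`, and `p = 2`: the order of
vanishing of the complete `L`-function at the centre, `H⁰(k, V_2 E)` and `H¹_f(k, V_2 E)` are zero. -/
theorem result :
    ∀ (F N K k : Type) [Field F] [NumberField F] [IsCyclotomicExtension {3} ℚ F]
      [Field N] [NumberField N] [Algebra F N] [Field K] [NumberField K] [Algebra N K] [IsGalois N K]
      [Field k] [NumberField k] [Algebra k K],
      Module.finrank F N = 2 → GoodRam F N → Admissible N K →
      (∃ a : K, a ^ 2 = -3 ∧ IntermediateField.adjoin k {a} = ⊤) → Formula (curve k) := by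
  intro F N K k _ _ _ _ _ _ _ _ _ _ _ _ _ h2 hg hcase hk
  have hyp : Pool.Agent.R430.Hyp N K := by
    rcases hcase with ⟨h3, h4⟩ | ⟨hn, hcomm, 𝔪, h𝔪, hgood, Φ, hΦ⟩
    · exact Or.inl ⟨h3, h4⟩
    · exact Or.inr ⟨hn, hcomm, 𝔪, h𝔪, hgood, Φ, hΦ.mul, hΦ.ray, hΦ.unram, hΦ.frob⟩
  have h := Pool.Agent.R430.all_k h2 hg hyp hk
  obtain ⟨L, h3, h4, h5, h6, -⟩ := h.analytic
  have key : ∀ (n : ℕ) (x : Pool.Agent.TH841.NF.D.Sha (E27 k)), 2 ^ n • x = 0 → x = 0 := by
    intro n
    induction n with
    | zero => intro x hx; simpa using hx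
    | succ n ih =>
      intro x hx
      apply ih
      apply h.sha
      rw [← two_nsmul, ← mul_smul, mul_comm, ← pow_succ]
      exact hx
  have key2 : ∀ (n : ℕ) (x : Pool.Agent.TH841.NF.D.Sha (E27 k)), 2 ^ n • x = 0 →
      2 ^ 0 • x = 0 := by
    intro n x hx
    rw [key n x hx, smul_zero]
  exact ⟨elliptic k, ⟨L, h3, h4, h5, h6⟩, fun x hx hfix => Pool.Agent.R390.noinv h.finite x hx hfix,
    Pool.Agent.Y667.BKP.h1f_zero Nat.prime_two h.finite 0 key2⟩

end Pool.Agent.Results.MP_ec4e4b_nt.NonabelianQuadraticBase
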